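import Mathlib

/-!
# MP_201e5f_co, Q1: the statement is false

The graph is the doubled triangle `2K_3`: on three vertices, every pair is joined by one straight
edge and one twisted edge.  The straight edges are oriented as a directed triangle, the twisted
edges are oriented both ways, so every out-degree is `3` and the biorientation is kernel-perfect.
All lists are `{0,1,2,3}`, the twisted matchings are the derangement `0 ↔ 1, 2 ↔ 3`.
A colouring would give a proper colouring of the triangle with the two classes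
`{0,1}` and `{2,3}`, so there is none.
-/

namespace Pool.Agent.Results.MP_201e5f_co.DoubledTriangle

/-- A loopless multigraph with vertex set `V` and edge set `E`; every edge `e` has the two
(distinct) ends `src e` and `tgt e` (listed in some order). -/
structure Multigraph (V E : Type) where
  src : E → V
  tgt : E → V
  loopless : ∀ e, src e ≠ tgt e

variable {V E : Type}

/-- A biorientation of `G`: for each edge `e` the arc `(src e, tgt e)` (if `fwd e`), the arc
`(tgt e, src e)` (if `bwd e`), or both. -/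
structure Biorientation (G : Multigraph V E) where
  fwd : E → Bool
  bwd : E → Bool
  some_arc : ∀ e, fwd e = true ∨ bwd e = true

/-- There is an arc from `u` to `v`. -/
def Arc {G : Multigraph V E} (D : Biorientation G) (u v : V) : Prop :=
  ∃ e, (D.fwd e = true ∧ G.src e = u ∧ G.tgt e = v) ∨
    (D.bwd e = true ∧ G.tgt e = u ∧ G.src e = v)

/-- The out-degree of `v`, arcs counted with multiplicity. -/
def outDeg [Fintype E] [DecidableEq V] {G : Multigraph V E} (D : Biorientation G) (v : V) : ℕ :=
  (Finset.univ.filter (fun e => D.fwd e = true ∧ G.src e = v)).card +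
    (Finset.univ.filter (fun e => D.bwd e = true ∧ G.tgt e = v)).card

/-- `D` is kernel-perfect: every induced subdigraph has a kernel. -/
def KernelPerfect {G : Multigraph V E} (D : Biorientation G) : Prop :=
  ∀ S : Finset V, ∃ U ⊆ S, (∀ u ∈ U, ∀ v ∈ U, ¬ Arc D u v) ∧
    ∀ v ∈ S, v ∉ U → ∃ u ∈ U, Arc D v u

/-- A correspondence assignment `(L, C)`: lists `L v`, and for each edge `e` a partial matching
`C_e`, where `C e c d` says that `{(src e, c), (tgt e, d)}` belongs to `C_e`. -/
structure Assignment (G : Multigraph V E) where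
  L : V → Finset ℕ
  C : E → ℕ → ℕ → Prop
  mem_left : ∀ e c d, C e c d → c ∈ L (G.src e)
  mem_right : ∀ e c d, C e c d → d ∈ L (G.tgt e)
  unique_right : ∀ e c d d', C e c d → C e c d' → d = d'
  unique_left : ∀ e c c' d, C e c d → C e c' d → c = c'

/-- The edge `e` is straight (otherwise it is twisted). -/
def Straight {G : Multigraph V E} (A : Assignment G) (e : E) : Prop :=
  ∀ c d, A.C e c d → c = d

/-- `C_e` is a partial derangement. -/
def PartialDerangement {G : Multigraph V E} (A : Assignment G) (e : E) : Prop :=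
  ∀ c, c ∈ A.L (G.src e) → c ∈ A.L (G.tgt e) → ¬ A.C e c c

/-- `(L, C)` is a derangement assignment. -/
def IsDerangementAssignment {G : Multigraph V E} (A : Assignment G) : Prop :=
  ∀ e, ¬ Straight A e → PartialDerangement A e

/-- `G` is `(L, C)`-colourable. -/
def Colourable {G : Multigraph V E} (A : Assignment G) : Prop :=
  ∃ φ : V → ℕ, (∀ v, φ v ∈ A.L v) ∧ ∀ e, ¬ A.C e (φ (G.src e)) (φ (G.tgt e))

/-- The statement asked about in Q1. -/
def Q1Statement : Prop :=
  ∀ (V E : Type) [Fintype V] [Fintype E] [DecidableEq V] (G : Multigraph V E)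
    (D : Biorientation G) (A : Assignment G),
    KernelPerfect D → IsDerangementAssignment A →
    (∀ e, ¬ Straight A e → D.fwd e = true ∧ D.bwd e = true) →
    (∀ v, outDeg D v + 1 ≤ (A.L v).card) → Colourable A

/-- The doubled triangle. Edges `0,1,2` are straight, `3,4,5` twisted. -/
def G0 : Multigraph (Fin 3) (Fin 6) where
  src := ![0, 1, 2, 0, 1, 2]
  tgt := ![1, 2, 0, 1, 2, 0]
  loopless := by decide

/-- Straight edges are oriented `0 → 1 → 2 → 0`, twisted edges both ways. -/
def D0 : Biorientation G0 where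
  fwd := fun _ => true
  bwd := ![false, false, false, true, true, true]
  some_arc := by decide

/-- The swap `0 ↔ 1`, `2 ↔ 3`. -/
def sw (c : ℕ) : ℕ := if c = 0 then 1 else if c = 1 then 0 else if c = 2 then 3 else 2

/-- The matchings. -/
def C0 (e : Fin 6) (c d : ℕ) : Prop := c < 4 ∧ d < 4 ∧ (if e < 3 then d = c else d = sw c)

instance (e : Fin 6) (c d : ℕ) : Decidable (C0 e c d) := by unfold C0; infer_instance

theorem unique_right0 (e : Fin 6) (c d d' : ℕ) (h : C0 e c d) (h' : C0 e c d') : d = d' := by
  obtain ⟨-, -, h⟩ := h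
  obtain ⟨-, -, h'⟩ := h'
  split_ifs at h h' with he
  · rw [h, h']
  · rw [h, h']

theorem unique_left0 (e : Fin 6) (c c' d : ℕ) (h : C0 e c d) (h' : C0 e c' d) : c = c' := by
  obtain ⟨hc, -, h⟩ := h
  obtain ⟨hc', -, h'⟩ := h'
  split_ifs at h h' with he
  · rw [← h, ← h']
  · rw [h] at h'
    unfold sw at h'
    interval_cases c <;> interval_cases c' <;> simp_all

/-- The assignment. -/
def A0 : Assignment G0 where
  L := fun _ => Finset.range 4
  C := C0
  mem_left := fun _ _ _ h => Finset.mem_range.mpr h.1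
  mem_right := fun _ _ _ h => Finset.mem_range.mpr h.2.1
  unique_right := unique_right0
  unique_left := unique_left0

theorem straight0 (e : Fin 6) (he : e < 3) : Straight A0 e := by
  intro c d h
  have h' : C0 e c d := h
  obtain ⟨-, -, h'⟩ := h'
  rw [if_pos he] at h'
  exact h'.symm

theorem arc0 : ∀ u v : Fin 3, u ≠ v → Arc D0 u v := by
  have : ∀ u v : Fin 3, u ≠ v → ∃ e : Fin 6, (D0.fwd e = true ∧ G0.src e = u ∧ G0.tgt e = v) ∨
    (D0.bwd e = true ∧ G0.tgt e = u ∧ G0.src e = v) := by decide
  exact this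

theorem no_loop {G : Multigraph V E} (D : Biorientation G) (u : V) : ¬ Arc D u u := by
  rintro ⟨e, ⟨-, h1, h2⟩ | ⟨-, h1, h2⟩⟩
  · exact G.loopless e (h1.trans h2.symm)
  · exact G.loopless e (h2.trans h1.symm)

theorem kernelPerfect0 : KernelPerfect D0 := by
  intro S
  rcases S.eq_empty_or_nonempty with h | ⟨a, ha⟩
  · exact ⟨∅, by simp, by simp, by simp [h]⟩
  · refine ⟨{a}, by simpa using ha, ?_, ?_⟩
    · intro u hu v hv
      rw [Finset.mem_singleton] at hu hv
      subst hu; subst hv
      exact no_loop D0 _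
    · intro v _ hv'
      exact ⟨a, by simp, arc0 v a (by simpa using hv')⟩

theorem outDeg0 : ∀ v : Fin 3, outDeg D0 v = 3 := by
  unfold outDeg D0 G0
  decide

theorem not_colourable0 : ¬ Colourable A0 := by
  rintro ⟨φ, hL, hC⟩
  have key : ∀ a b c : Fin 4, ∃ e : Fin 6,
      C0 e ((![a, b, c] (G0.src e) : Fin 4) : ℕ) ((![a, b, c] (G0.tgt e) : Fin 4) : ℕ) := by
    decide +kernel
  have h0 : φ 0 < 4 := Finset.mem_range.mp (hL 0)
  have h1 : φ 1 < 4 := Finset.mem_range.mp (hL 1)
  have h2 : φ 2 < 4 := Finset.mem_range.mp (hL 2)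
  obtain ⟨e, he⟩ := key ⟨φ 0, h0⟩ ⟨φ 1, h1⟩ ⟨φ 2, h2⟩
  have hφ : ∀ v : Fin 3, (((![⟨φ 0, h0⟩, ⟨φ 1, h1⟩, ⟨φ 2, h2⟩] : Fin 3 → Fin 4) v : Fin 4) : ℕ)
      = φ v := by
    intro v
    fin_cases v <;> rfl
  rw [hφ, hφ] at he
  exact hC e he

theorem derangement0 : IsDerangementAssignment A0 := by
  intro e he c _ _ hcc
  have hcc' : C0 e c c := hcc
  by_cases h3 : e < 3
  · exact he (straight0 e h3)
  · obtain ⟨hc, -, h⟩ := hcc'
    rw [if_neg h3] at h
    have hne : ∀ c < 4, c ≠ sw c := by decide
    exact hne c hc h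

theorem twisted0 : ∀ e, ¬ Straight A0 e → D0.fwd e = true ∧ D0.bwd e = true := by
  intro e he
  have h3 : ¬ e < 3 := fun h => he (straight0 e h)
  have : ∀ e : Fin 6, ¬ e < 3 → D0.fwd e = true ∧ D0.bwd e = true := by decide
  exact this e h3

/-- **Disproof of Q1.**  The statement of Q1 fails; a counterexample lives on the doubled
triangle (three vertices, six edges) with all lists of size `4`. -/
theorem result : ¬ Q1Statement ∧
    ∃ (G : Multigraph (Fin 3) (Fin 6)) (D : Biorientation G) (A : Assignment G),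
      KernelPerfect D ∧ IsDerangementAssignment A ∧
      (∀ e, ¬ Straight A e → D.fwd e = true ∧ D.bwd e = true) ∧
      (∀ v, outDeg D v + 1 ≤ (A.L v).card) ∧ ¬ Colourable A := by
  have hcard : ∀ v, outDeg D0 v + 1 ≤ (A0.L v).card := by
    intro v
    rw [outDeg0 v]
    simp [A0]
  refine ⟨fun h => not_colourable0 (h _ _ G0 D0 A0 kernelPerfect0 derangement0 twisted0 hcard),
    G0, D0, A0, kernelPerfect0, derangement0, twisted0, hcard, not_colourable0⟩

end Pool.Agent.Results.MP_201e5f_co.DoubledTriangle
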